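import Mathlib

/-!
# Project T3 (MP_a41896_nt), part LEAF: finitely many flat hypersurfaces contain a given point

`β_l` are squarefree polynomials (for the elliptic curve `ψ² = B_l(x)`: `β_l = B_l`). The invariant derivations are
`d_l X_l = Ψ_l`, `d_l Ψ_l = β_l'(X_l) / 2`. `h` is FLAT with the constants `n_l` if
`n_k β_i (∂_i h)² ≡ n_i β_k (∂_k h)²` modulo `h`. All statements for an arbitrary finite set `σ` of coordinates.
-/

set_option autoImplicit false

open MvPolynomial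

namespace Pool.Agent.Helper42.T3

noncomputable section

/-! ## Definitions -/

section defs

variable {K : Type} [Field K] {σ : Type}

/-- `β_l(X_l)` -/
def bX (β : σ → Polynomial K) (l : σ) : MvPolynomial σ K := Polynomial.aeval (X l) (β l)

/-- flatness with the constants `n l` -/
def FlatB (β : σ → Polynomial K) (n : σ → K) (h : MvPolynomial σ K) : Prop :=
  ∀ i k, h ∣ C (n k) * (bX β i * pderiv i h ^ 2) - C (n i) * (bX β k * pderiv k h ^ 2)

/-- The ring `K[X, Ψ, M]`: `X_l = X (inl l)`, `Ψ_l = X (inr (inl l))`, `M_l = X (inr (inr l))`. -/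
abbrev RR (σ K : Type) [Field K] := MvPolynomial (σ ⊕ σ ⊕ σ) K

/-- `β_l'(X_l) / 2` in `RR` -/
def hb (β : σ → Polynomial K) (l : σ) : RR σ K :=
  C (1 / 2) * Polynomial.aeval (X (Sum.inl l)) (Polynomial.derivative (β l))

/-- The derivation `T_a = M_i' d_a - M_a d_i'` of `RR` (`T_i' = 0`). -/
def TD [DecidableEq σ] (β : σ → Polynomial K) (i' a : σ) : Derivation K (RR σ K) (RR σ K) :=
  mkDerivation K fun s => match s with
    | Sum.inl l => (if l = a then X (Sum.inr (Sum.inr i')) * X (Sum.inr (Sum.inl a)) else 0) -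
        (if l = i' then X (Sum.inr (Sum.inr a)) * X (Sum.inr (Sum.inl i')) else 0)
    | Sum.inr (Sum.inl l) => (if l = a then X (Sum.inr (Sum.inr i')) * hb β a else 0) -
        (if l = i' then X (Sum.inr (Sum.inr a)) * hb β i' else 0)
    | Sum.inr (Sum.inr _) => 0

/-- iterated derivations -/
def TW [DecidableEq σ] (β : σ → Polynomial K) (i' : σ) (w : List σ) (F : RR σ K) : RR σ K :=
  w.foldr (fun a G => TD β i' a G) F

/-- all iterated derivations of `h(X)` vanish at `(ξ, ψ, μ)` -/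
def VV [DecidableEq σ] {Ω : Type} [Field Ω] [Algebra K Ω] (β : σ → Polynomial K) (i' : σ)
    (ξ ψ μ : σ → Ω) (F : RR σ K) : Prop :=
  ∀ w : List σ, aeval (Sum.elim ξ (Sum.elim ψ μ)) (TW β i' w F) = 0

end defs

/-! ## Goals -/

/-- **ORD** (the order at the origin). No hypotheses. `R_l f := β_l(X_l) ∂_l f` and `Δ_l f := β_l(X_l) ∂_l² f + β_l'(X_l)/2 ∂_l f`.
PROOF. Suppose `f ≠ 0`, `P f`, `f` does not involve `X_i'`. `m` in the support of `f` is called minimal if no `m'' < m` (product order) is in the support; it exists. CLAIM (induction on `∑ m_l`): there is no pair `(f, m)` with `P f`, `degreeOf i' f = 0`, `m` a minimal element of the support of `f`.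
If `m = 0`: `constantCoeff f = coeff 0 f ≠ 0`, contradiction. Otherwise take `l` with `m_l > 0`; `l ≠ i'` because `degreeOf i' f = 0`. Write `β_l = b_0 + X γ` in `Ω[X]`.
KEY: let `n` be such that `coeff m'' f = 0` for all `m'' ≤ n`. (i) `coeff n (g * f') = 0` for every `g` if `f'` has the property that each element of its support is in the support of `f` (`coeff_mul`: sum over the antidiagonal `(a, b)` of `n`, `b ≤ n`); e.g. `f' = X_l ∂_l f`, `X_l² ∂_l² f`.
(ii) if `b_0 ≠ 0`: `β_l(X_l) ∂_l f = C b_0 ∂_l f + γ(X_l) (X_l ∂_l f)`, so `coeff n (R_l f) = b_0 (n_l + 1) coeff (n + e_l) f`. (iii) if `b_0 = 0`, `b_1 := β_l'(0) ≠ 0`: `β_l = X (b_1 + X γ_2)`, `β_l' = b_1 + X γ_3`, so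
`Δ_l f = b_1 X_l ∂_l² f + γ_2(X_l) (X_l² ∂_l² f) + b_1/2 ∂_l f + (1/2) γ_3(X_l) (X_l ∂_l f)` and `coeff n (Δ_l f) = b_1 (n_l + 1)(n_l + 1/2) coeff (n + e_l) f`.
Let `f'` be `R_l f` (ii) or `Δ_l f` (iii): `P f'`, `f'` does not involve `X_i'` (`degreeOf i' (bX β l) = 0` for `l ≠ i'`, `pderiv` does not raise the degree). Apply KEY to `n = m - e_l` (all `m'' ≤ n` are `< m`): `coeff n f' ≠ 0`. For `n' < n`: again `coeff n' f' = c coeff (n' + e_l) f = 0` because `n' + e_l < m`. So `(f', m - e_l)` is again such a pair, with smaller `∑ m_l`. -/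
def ORD : Prop :=
  ∀ (Ω : Type) [Field Ω] [CharZero Ω] (σ : Type) [Fintype σ] [DecidableEq σ] (i' : σ)
    (β : σ → Polynomial Ω) (P : MvPolynomial σ Ω → Prop),
    (∀ l, (β l).eval 0 = 0 → (Polynomial.derivative (β l)).eval 0 ≠ 0) →
    (∀ f, P f → constantCoeff f = 0) →
    (∀ f l, l ≠ i' → P f → f.degreeOf i' = 0 → P (bX β l * pderiv l f)) →
    (∀ f l, l ≠ i' → P f → f.degreeOf i' = 0 →
      P (bX β l * pderiv l (pderiv l f) +
        C (1 / 2) * (bX (fun l => Polynomial.derivative (β l)) l * pderiv l f))) →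
    ∀ f, P f → f.degreeOf i' = 0 → f = 0

/-- **DER** (derivations of a field with given values on a transcendence basis). No hypotheses.
PROOF. `S := MvPolynomial τ K`, `L` is an `S`-algebra by `(aeval x).toAlgebra` (injective: `hx.1`). `S → FractionRing S` is formally etale (localization: `Algebra.FormallyEtale.of_isLocalization`), `FractionRing S → L` (lift of the injective map, `IsFractionRing.lift`) is algebraic and separable (characteristic 0), so formally etale (`Algebra.FormallyEtale.of_isSeparable`), and `Algebra.FormallyEtale.comp`.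
Let `d : Derivation K S L := mkDerivation K c`. `KaehlerDifferential.tensorKaehlerEquivOfFormallyEtale K S L : L ⊗[S] Ω[S⁄K] ≃ₗ[L] Ω[L⁄K]`; `δ := ((d.liftKaehlerDifferential).liftBaseChange L ∘ equiv.symm).compDer (KaehlerDifferential.D K L)`, and `δ (algebraMap S L s) = d s` by `tensorKaehlerEquivOfFormallyEtale_symm_D_algebraMap`.
(Alternatively Zorn / one algebraic element at a time.) -/
def DER : Prop :=
  ∀ (K : Type) [Field K] [CharZero K] (L : Type) [Field L] [Algebra K L] (τ : Type) (x : τ → L),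
    IsTranscendenceBasis K x → ∀ c : τ → L, ∃ δ : Derivation K L L, ∀ t, δ (x t) = c t

/-- **SPEC** (a specialization extends to integral elements). No hypotheses.
PROOF. `A₀ := (aeval x : MvPolynomial σ K →ₐ[K] L).range` (`= Algebra.adjoin K (range x)`), `A := (aeval (Sum.elim x y)).range ⊇ A₀`; `A` is integral over `A₀` (generated by the `y_r`). By the hypothesis `aeval ξ` factors through `A₀`: `φ₀ : A₀ →ₐ[K] Ω`
(`Ideal.Quotient.lift` / `AlgHom` from `RingHom.quotientKerEquivRange`). `P₀ := ker φ₀` is prime (`Ω` is a field). Lying over (`Ideal.exists_ideal_over_prime_of_isIntegral_of_isDomain`): a prime `Q` of `A` with `Q ∩ A₀ = P₀`. `A₀ / P₀ → A / Q` is injective and integral (algebraic), `A₀ / P₀ → Ω` is injective, `Ω` algebraically closed: `IsAlgClosed.lift` gives `A / Q → Ω`.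
`η r :=` the image of `y r`. For `F` with `aeval (Sum.elim x y) F = 0`: `aeval (Sum.elim ξ η) F` is the image of the element `F(x, y) = 0` of `A`. -/
def SPEC : Prop :=
  ∀ (K : Type) [Field K] (L Ω : Type) [Field L] [Algebra K L] [Field Ω] [Algebra K Ω]
    [IsAlgClosed Ω] (σ ρ : Type) (x : σ → L) (y : ρ → L) (ξ : σ → Ω),
    (∀ r, IsIntegral (Algebra.adjoin K (Set.range x)) (y r)) →
    (∀ F : MvPolynomial σ K, aeval x F = 0 → aeval ξ F = 0) →
    ∃ η : ρ → Ω, ∀ F : MvPolynomial (σ ⊕ ρ) K, aeval (Sum.elim x y) F = 0 →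
      aeval (Sum.elim ξ η) F = 0

/-- **ELIM** (Bezout). No hypotheses.
PROOF. `IsRelPrime h g` (a common divisor of the irreducible `h` is a unit or associated to `h`, but `h ∤ g`). Transport by `E := (renameEquiv K (Equiv.optionSubtypeNe i').symm).trans (optionEquivLeft K _) : MvPolynomial σ K ≃ₐ Polynomial (MvPolynomial {j // j ≠ i'} K)` and apply `Pool.Agent.Helper23.Vojta.bezout_const`
(`Pool/Agent/Helper23/Vojta/Gauss.lean`); exactly as in the first 30 lines of `elim_var` in `Pool/Agent/Helper23/Vojta/Elim.lean`. `degreeOf i' (rename (↑) r) = 0`. -/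
def ELIM : Prop :=
  ∀ (K : Type) [Field K] (σ : Type) [Fintype σ] [DecidableEq σ] (i' : σ)
    (h g : MvPolynomial σ K), Irreducible h → ¬ h ∣ g →
    ∃ a b r : MvPolynomial σ K, r ≠ 0 ∧ r.degreeOf i' = 0 ∧ a * h + b * g = r

/-- **GPT** (generic point of an irreducible hypersurface). Hypotheses allowed: ELIM.
PROOF. `S := MvPolynomial {l // l ≠ i'} K`, `L := AlgebraicClosure (FractionRing S)`, `x_l :=` the image of `X_l` for `l ≠ i'`: a transcendence basis of `L` over `K` (`L` is algebraic over `FractionRing S`; `AlgebraicIndependent` because `S → L` is injective).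
`x_i'` := a root of `h(x, T) ∈ L[T]`: with `E := (renameEquiv K (Equiv.optionSubtypeNe i').symm).trans (optionEquivLeft K _)`, `E h` mapped to `L[T]` (injective coefficients, degree `= degreeOf i' h ≥ 1`), `IsAlgClosed.exists_root`. So `aeval x h = 0`, hence `h ∣ F → aeval x F = 0`.
Conversely if `aeval x F = 0` and `h ∤ F`: ELIM gives `a h + b F = r ≠ 0` with `degreeOf i' r = 0`, so `r = rename (↑) r'`, `r' ∈ S` non-zero, and `0 = aeval x r =` the image of `r'` in `L`, contradiction. -/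
def GPT : Prop :=
  ∀ (K : Type) [Field K] (σ : Type) [Fintype σ] [DecidableEq σ] (i' : σ)
    (h : MvPolynomial σ K), Irreducible h → degreeOf i' h ≠ 0 →
    ∃ (L : Type) (_ : Field L) (_ : Algebra K L) (_ : IsAlgClosed L) (x : σ → L),
      IsTranscendenceBasis K (fun l : {l : σ // l ≠ i'} => x l) ∧
      ∀ F : MvPolynomial σ K, aeval x F = 0 ↔ h ∣ F

/-- **GENP** (the generic point). Hypotheses allowed: GPT, DER, SPEC.
PROOF. Suppose that `h` divides no `bX β l`. (0) `degreeOf i' h ≠ 0`: otherwise `∂_i' h = 0` and flatness for `(a, i')` gives `h ∣ n_i' β_a (∂_a h)²`, so `h ∣ bX β a` (excluded) or `h ∣ ∂_a h`, `∂_a h = 0` by degree in `X_a` (char 0), for all `a`: `h` constant, not irreducible.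
(1) GPT: `L`, `x`. (2) `aeval x F = 0 ↔ h ∣ F`. So `β_l(x_l) ≠ 0` for all `l` (`h ∤ bX β l`) and `∂_i' h (x) ≠ 0` (`h ∤ ∂_i' h` by degree, char 0).
(3) `y_l ∈ L` with `y_l² = β_l(x_l)`, `y_l ≠ 0`; `m_i' ∈ L` with `m_i'² = n_i'`, `m_i' ≠ 0`; `m_a := m_i' y_a ∂_a h(x) / (y_i' ∂_i' h(x))` (for `a = i'` this is `m_i'`). Flatness at `x` (`h(x) = 0`): `n_i' (y_a ∂_a h(x))² = n_a (y_i' ∂_i' h(x))²`, so `m_a² = n_a`.
(4) for `a ≠ i'` let `δ` be the derivation of DER with `δ x_a = m_i' y_a`, `δ x_l = 0` for the other `l ≠ i'`. `0 = δ(h(x)) = ∂_a h(x) m_i' y_a + ∂_i' h(x) δ x_i'` so `δ x_i' = - m_a y_i'`. `2 y_l δ y_l = β_l'(x_l) δ x_l`, so `δ y_a = m_i' β_a'(x_a)/2`, `δ y_i' = - m_a β_i'(x_i')/2` (derivative of `β_i'`), `δ y_l = 0` otherwise; `2 m_l δ m_l = δ n_l = 0`, so `δ m_l = 0` (also if `m_l = 0`).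
So with `Φ := aeval (Sum.elim x (Sum.elim y m)) : RR σ K → L`: `Φ (TD β i' a F) = δ (Φ F)` for all `F` (`MvPolynomial.induction_on`). For `a = i'`: `TD β i' i' F = 0`. So `Φ F = 0` implies `Φ (TD β i' a F) = 0`, and `Φ (TW β i' w (rename Sum.inl h)) = 0` for all `w`.
(5) SPEC with `ρ = σ ⊕ σ`, `Sum.elim y m` (integral: `y_l² = β_l(x_l)`, `m_l² = n_l`), `ξ` (`F(x) = 0 → h ∣ F → F(ξ) = 0`): `η = Sum.elim ψ μ` with `aeval (Sum.elim ξ η) F = 0` for all `F` with `Φ F = 0`. Apply it to `Ψ_l² - β_l(X_l)`, `M_l² - n_l` and to the `TW β i' w (rename Sum.inl h)`. -/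
def GENP : Prop :=
  ∀ (K : Type) [Field K] [CharZero K] (σ : Type) [Fintype σ] [DecidableEq σ]
    (β : σ → Polynomial K), (∀ i, β i ≠ 0) → ∀ (n : σ → K) (i' : σ), n i' ≠ 0 →
    ∀ (Ω : Type) [Field Ω] [Algebra K Ω] [IsAlgClosed Ω] (ξ : σ → Ω) (h : MvPolynomial σ K),
    Irreducible h → FlatB β n h → aeval ξ h = 0 → (∃ l, h ∣ bX β l) ∨
      ∃ ψ μ : σ → Ω, (∀ l, ψ l ^ 2 = Polynomial.aeval (ξ l) (β l)) ∧
        (∀ l, μ l ^ 2 = algebraMap K Ω (n l)) ∧ VV β i' ξ ψ μ (rename Sum.inl h)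

/-- **VMUL** (the iterated kernel is an ideal). No hypotheses.
PROOF. Induction on the length of `w` for all `F, G` with `VV .. F`: `TW (w ++ [a]) (G F) = TW w (T_a (G F)) = TW w (G T_a F) + TW w (F T_a G)` (`TW` is additive; `foldr_append`), and `VV .. (T_a F)` (words `w ++ [a]`). Empty word: `(G F)(pt) = G(pt) F(pt) = 0`. -/
def VMUL : Prop :=
  ∀ (K : Type) [Field K] (σ : Type) [DecidableEq σ] (β : σ → Polynomial K) (i' : σ)
    (Ω : Type) [Field Ω] [Algebra K Ω] (ξ ψ μ : σ → Ω) (F G : RR σ K),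
    VV β i' ξ ψ μ F → VV β i' ξ ψ μ (G * F)

/-- **VMAP** (base change). No hypotheses.
PROOF. `map (algebraMap K Ω) (TD β i' a F) = TD β^ i' a (map (algebraMap K Ω) F)`, `β^ l = (β l).map (algebraMap K Ω)` (`MvPolynomial.induction_on F`, generators: `map_X`, `Polynomial.derivative_map`, `map (aeval (X s) p) = aeval (X s) (p.map ..)`), so the same for `TW`, and
`aeval pt F = aeval pt (map (algebraMap K Ω) F)` (`aeval_map_algebraMap`). -/
def VMAP : Prop :=
  ∀ (K : Type) [Field K] (σ : Type) [DecidableEq σ] (β : σ → Polynomial K) (i' : σ)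
    (Ω : Type) [Field Ω] [Algebra K Ω] (ξ ψ μ : σ → Ω) (F : RR σ K),
    VV β i' ξ ψ μ F ↔
      VV (fun l => (β l).map (algebraMap K Ω)) i' ξ ψ μ (map (algebraMap K Ω) F)

/-- **UNI** (uniqueness). Hypotheses allowed: ORD, ELIM, VMUL, VMAP.
PROOF. (1) The set `Q` of the `F` with `VV β i' ξ ψ μ F` is closed under sums, under `TD β i' a` (the word `w ++ [a]`), and under multiplication (VMUL). `F ∈ Q → aeval .. F = 0` (the empty word).
(2) base change to the base field `Ω` by VMAP (`β^ = β` mapped to `Ω[X]`). In `Q` over `Ω`: `M_i' - C μ_i'` (`TD` kills it, and it vanishes at the point) and `Ψ_l² - β_l(X_l)` (`TD` gives `2 Ψ_l T_a Ψ_l - β_l' T_a X_l = 0`).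
(3) For `f : MvPolynomial σ Ω` with `degreeOf i' f = 0` and `rename Sum.inl f ∈ Q`, `l ≠ i'`: `T_l f = M_i' Ψ_l ∂_l f` (`f` does not involve `X_i'`), so `Ψ_l T_l f = M_i' Ψ_l² ∂_l f`, and modulo the elements of (2) `μ_i' β_l ∂_l f ∈ Q`, so `β_l ∂_l f ∈ Q` (`μ_i' ≠ 0`). `T_l T_l f = M_i'² (β_l'/2 ∂_l f + Ψ_l² ∂_l² f)`, so `β_l ∂_l² f + β_l'/2 ∂_l f ∈ Q`.
(4) translate `ξ` to `0`: `τ f := f(X + ξ)` (`aeval (fun l => X l + C (ξ l))`, inverse `X - ξ`), `β~_l(X) := β_l(X + ξ_l)` (`Polynomial.comp` / `Polynomial.taylor`), `P g := rename Sum.inl (τ⁻¹ g) ∈ Q`. ORD (`β~_l(0) = β_l(ξ_l) = ψ_l²`; if it is `0` then the derivative at `0` is `β_l'(ξ_l) ≠ 0` because `β_l` is separable; `constantCoeff (τ f) = f(ξ) = 0`) gives: `f = 0`.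
(5) `h, h'` as in the statement, `h ∤ h'`: ELIM: `a h + b h' = r ≠ 0`, `degreeOf i' r = 0`, and `rename Sum.inl r ∈ Q` by (1), mapped to `Ω`: `r = 0` by (4), contradiction. -/
def UNI : Prop :=
  ∀ (K : Type) [Field K] [CharZero K] (σ : Type) [Fintype σ] [DecidableEq σ]
    (β : σ → Polynomial K), (∀ i, (β i).Separable) → ∀ (i' : σ),
    ∀ (Ω : Type) [Field Ω] [Algebra K Ω] (ξ ψ μ : σ → Ω),
    (∀ l, ψ l ^ 2 = Polynomial.aeval (ξ l) (β l)) → μ i' ≠ 0 →
    ∀ h h' : MvPolynomial σ K, Irreducible h → VV β i' ξ ψ μ (rename Sum.inl h) →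
      VV β i' ξ ψ μ (rename Sum.inl h') → h ∣ h'

/-- **LEAFB**: finitely many flat hypersurfaces with given slopes contain a given point. -/
def LEAFB : Prop :=
  ∀ (K : Type) [Field K] [CharZero K] (σ : Type) [Fintype σ] [DecidableEq σ]
    (β : σ → Polynomial K), (∀ i, Squarefree (β i)) → (∀ i, (β i).natDegree ≠ 0) →
    ∀ (n : σ → K) (i' : σ), n i' ≠ 0 →
    ∀ (Ω : Type) [Field Ω] [Algebra K Ω] [IsAlgClosed Ω] (ξ : σ → Ω),
    ∃ F : Finset (MvPolynomial σ K), (∀ g ∈ F, g ≠ 0) ∧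
      ∀ h : MvPolynomial σ K, Irreducible h → FlatB β n h → aeval ξ h = 0 → ∃ g ∈ F, h ∣ g

end

end Pool.Agent.Helper42.T3
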